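import Pool.Agent.Q30.Torus2

/-!
# MP_df87fb: quasiregular normal forms with sublinear fellow traveler property

For every `M ∈ GL(2, ℤ)` with two real eigenvalues different from `± 1`, the torus bundle group
`ℤ² ⋊_M ℤ` has a prefix closed normal form with the `f(n)`-fellow traveler property for
`f(n) = 2 ^ ⌊log₃ n⌋`.
-/

namespace Pool.Agent.Results.MP_df87fb_al.TorusNormalForm

open Q30.Torus Filter

/-- `M` has two real eigenvalues, neither equal to `± 1`. -/
def TwoRealEigenvalues (M : GL (Fin 2) ℤ) : Prop :=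
  ∃ a b : ℝ, (M.1.map (Int.castRingHom ℝ)).charpoly =
      (Polynomial.X - Polynomial.C a) * (Polynomial.X - Polynomial.C b) ∧
    a ≠ 1 ∧ a ≠ -1 ∧ b ≠ 1 ∧ b ≠ -1

theorem sq_eq_one_iff_of_side_cases {a : ℝ} (h : a ^ 2 = 1) : a = 1 ∨ a = -1 := by
  have h1 : (a - 1) * (a + 1) = 0 := by ring_nf; linarith
  rcases mul_eq_zero.1 h1 with h2 | h2
  · left; linarith
  · right; linarith

theorem three_le_trace (M : GL (Fin 2) ℤ) (h : TwoRealEigenvalues M) :
    3 ≤ (M.1 ^ 2).trace := by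
  obtain ⟨a, b, hab, ha1, ha2, -, -⟩ := h
  rw [Matrix.charpoly_fin_two] at hab
  set A := M.1.map (Int.castRingHom ℝ) with hA
  have h0 := congrArg (Polynomial.eval 0) hab
  have h1 := congrArg (Polynomial.eval 1) hab
  simp only [Polynomial.eval_add, Polynomial.eval_sub, Polynomial.eval_mul, Polynomial.eval_pow,
    Polynomial.eval_X, Polynomial.eval_C] at h0 h1
  have hdet : M.1.det = 1 ∨ M.1.det = -1 := by
    have h : IsUnit M.1.det := (Matrix.isUnit_iff_isUnit_det _).1 M.isUnit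
    exact Int.isUnit_iff.1 h
  have hdA : A.det = (M.1.det : ℝ) := by
    rw [hA, Matrix.det_fin_two, Matrix.det_fin_two]
    simp
  have htr : ((M.1 ^ 2).trace : ℝ) = A.trace ^ 2 - 2 * A.det := by
    rw [hA, Matrix.det_fin_two, Matrix.trace_fin_two, Matrix.trace_fin_two, pow_two,
      Matrix.mul_apply, Matrix.mul_apply, Fin.sum_univ_two, Fin.sum_univ_two]
    simp
    ring
  have hs : A.trace = a + b := by linarith
  have hp : A.det = a * b := by linarith
  have htr2 : ((M.1 ^ 2).trace : ℝ) = a ^ 2 + b ^ 2 := by rw [htr, hs, hp]; ring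
  have hab2 : (a * b) ^ 2 = 1 := by
    rw [← hp, hdA]
    rcases hdet with h | h <;> rw [h] <;> norm_num
  by_contra hlt
  push Not at hlt
  have h2 : ((M.1 ^ 2).trace : ℝ) ≤ 2 := by exact_mod_cast (by omega : (M.1 ^ 2).trace ≤ 2)
  rw [htr2] at h2
  have h3 : (a ^ 2 - b ^ 2) ^ 2 ≤ 0 := by nlinarith [sq_nonneg a, sq_nonneg b]
  have h4 : a ^ 2 = b ^ 2 := by nlinarith [sq_nonneg (a ^ 2 - b ^ 2)]
  have h5 : (a ^ 2) ^ 2 = 1 := by
    calc (a ^ 2) ^ 2 = a ^ 2 * b ^ 2 := by rw [h4]; ring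
      _ = 1 := by rw [← mul_pow]; exact hab2
  have h6 : a ^ 2 = 1 := by nlinarith [sq_nonneg a]
  rcases sq_eq_one_iff_of_side_cases h6 with h | h
  · exact ha1 h
  · exact ha2 h

/-- Answer to Q1: yes, for every `M` as in the problem. -/
theorem result (M : GL (Fin 2) ℤ) (hM : TwoRealEigenvalues M) :
    ∃ (m : ℕ) (X : Fin m → GM M), Subgroup.closure (Set.range X) = ⊤ ∧
      ∃ L : Set (List (Fin m × Bool)), IsNormalForm X L ∧ Quasiregular L ∧
        (∀ w ∈ L, ∀ u, u <+: w → u ∈ L) ∧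
        ∃ f : ℕ → ℝ, Monotone f ∧ (∀ n, 0 ≤ f n) ∧ LL f (fun n => (n : ℝ)) ∧
          Preceq (fun n => (sL X L n : ℝ)) f := by
  have hT := three_le_trace M hM
  refine ⟨3, X M, closure_X, L, bijOn, ⟨0, ?_⟩, prefix_closed, fun n => (ff n : ℝ), ?_, ?_, ff_LL,
    2 * cst M, 1, ?_, one_pos, ?_⟩
  · intro w hw u hu
    exact ⟨[], le_rfl, by rw [List.append_nil]; exact prefix_closed w hw u hu⟩
  · intro a b h
    have h1 : ff a ≤ ff b := ff_mono h
    change (ff a : ℝ) ≤ ff b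
    exact_mod_cast h1
  · intro n
    positivity
  · unfold cst; omega
  · refine Eventually.of_forall fun n => ?_
    rw [one_mul]
    have h1 := sL_le hT n
    change (sL (X M) L n : ℝ) ≤ ((2 * cst M : ℕ) : ℝ) * (ff n : ℝ)
    exact_mod_cast h1

end Pool.Agent.Results.MP_df87fb_al.TorusNormalForm
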